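import Pool.Agent.H785R2.ABC.Defs

/-! # Module W1: weighted pair count -/

namespace Pool.Agent.W342.AB

open Finset Pool.Agent.H785R2.ABC

lemma le_of_pow {a b : ℝ} (hb : 0 ≤ b) {k : ℕ} (hk : 1 ≤ k) (h : a ^ k ≤ b ^ k) : a ≤ b :=
  le_of_pow_le_pow_left₀ (by omega) hb h

lemma root_pow {x : ℝ} (hx : 0 ≤ x) {k : ℕ} (hk : 1 ≤ k) : (x ^ ((1 : ℝ) / k)) ^ k = x := by
  rw [one_div]
  exact Real.rpow_inv_natCast_pow hx (by omega)

lemma root_nonneg {x : ℝ} (hx : 0 ≤ x) (k : ℕ) : 0 ≤ x ^ ((1 : ℝ) / k) := Real.rpow_nonneg hx _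

/-- the bound for one fibre -/
lemma fibre (hF : Basics) {K k : ℕ} (hk : 1 ≤ k) (hkK : k ≤ K + 1) {ε D₂ : ℝ} (hD₂ : 0 < D₂)
    (hε : 0 < ε)
    (hD : ∀ k : ℕ, 1 ≤ k → k ≤ K + 1 → ∀ f : ℕ, 1 ≤ f →
      ∀ c : ZMod f, IsUnit c → ∀ Y ξ δ : ℝ, 0 ≤ Y → 0 < ξ → 0 ≤ δ → ∀ T : Finset (ℕ × ℕ),
      (∀ t ∈ T, 0 < t.1 ∧ 0 < t.2 ∧ Nat.Coprime t.1 t.2 ∧ Nat.Coprime t.1 f ∧
        Nat.Coprime t.2 f ∧ (t.1 : ZMod f) ^ k = c * (t.2 : ZMod f) ^ k ∧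
        (t.2 : ℝ) ≤ Y ∧ ξ * t.2 ≤ t.1 ∧ (t.1 : ℝ) ≤ ξ * (1 + δ) * t.2) →
      (T.card : ℝ) ≤ D₂ * (f : ℝ) ^ ε * (1 + ξ * δ * Y ^ 2 / f))
    {κ : ℝ} (hκ : 1 ≤ κ) {X f : ℕ} (hf : 1 ≤ f) (hfX : f ≤ X)
    {S : Finset (Fin (K + 1))}
    {A ρ δ : ℝ} (hA : 0 < A) (hρ : 0 < ρ) (hδ : 0 ≤ δ) (x : ℕ → ℕ)
    (hx : ∀ n, 1 ≤ n → x n ^ k = part K n S ∧ 1 ≤ x n) (d d' g : ℕ)
    (P : Finset (ℕ × ℕ))
    (hP : ∀ t ∈ P, part K t.1 Sᶜ = d ∧ part K t.2 Sᶜ = d' ∧ Nat.gcd (x t.1) (x t.2) = g ∧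
      1 ≤ t.1 ∧ 1 ≤ t.2 ∧ Nat.Coprime t.1 f ∧ Nat.Coprime t.2 f ∧
      (t.1 : ZMod f) = (t.2 : ZMod f) ∧
      (part K t.1 S : ℝ) ≤ A ∧ (part K t.2 S : ℝ) ≤ A ∧ A ≤ κ * part K t.2 S ∧
      ρ * t.2 ≤ t.1 ∧ (t.1 : ℝ) ≤ ρ * (1 + δ) * t.2) :
    (P.card : ℝ) ≤ D₂ * (X : ℝ) ^ ε * (κ * (1 + δ * (A ^ 2) ^ ((1 : ℝ) / k) / f)) := by
  classical
  have hfR : (0 : ℝ) < f := by exact_mod_cast hf
  have hXR : (0 : ℝ) < X := by exact_mod_cast (lt_of_lt_of_le hf hfX)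
  rcases P.eq_empty_or_nonempty with hE | ⟨t₁, ht₁⟩
  · rw [hE, Finset.card_empty, Nat.cast_zero]
    have := Real.rpow_nonneg (pow_pos hA 2).le ((1 : ℝ) / k)
    positivity
  -- basic facts on members of `P`
  have key : ∀ t ∈ P, x t.1 ^ k * d = t.1 ∧ x t.2 ^ k * d' = t.2 ∧ 1 ≤ x t.1 ∧ 1 ≤ x t.2 ∧
      x t.1 ∣ t.1 ∧ x t.2 ∣ t.2 ∧ d ∣ t.1 ∧ d' ∣ t.2 ∧ g ∣ x t.1 ∧ g ∣ x t.2 := by
    intro t ht
    obtain ⟨h1, h2, h0, h3, h4, -⟩ := hP t ht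
    obtain ⟨hx1, hx2⟩ := hx t.1 h3
    obtain ⟨hy1, hy2⟩ := hx t.2 h4
    have e1 : x t.1 ^ k * d = t.1 := by rw [hx1, ← h1]; exact hF.part_mul K _ S h3
    have e2 : x t.2 ^ k * d' = t.2 := by rw [hy1, ← h2]; exact hF.part_mul K _ S h4
    refine ⟨e1, e2, hx2, hy2, ?_, ?_, ?_, ?_, ?_, ?_⟩
    · exact (dvd_pow_self _ (by omega)).trans ⟨d, e1.symm⟩
    · exact (dvd_pow_self _ (by omega)).trans ⟨d', e2.symm⟩
    · exact ⟨x t.1 ^ k, by rw [mul_comm]; exact e1.symm⟩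
    · exact ⟨x t.2 ^ k, by rw [mul_comm]; exact e2.symm⟩
    · rw [← h0]; exact Nat.gcd_dvd_left _ _
    · rw [← h0]; exact Nat.gcd_dvd_right _ _
  -- the set of pairs of reduced roots
  set T : Finset (ℕ × ℕ) := P.image fun t => (x t.1 / g, x t.2 / g) with hT
  have hcard : T.card = P.card := by
    apply Finset.card_image_of_injOn
    intro t ht t' ht' htt
    obtain ⟨a1, a2, -, -, -, -, -, -, a3, a4⟩ := key t ht
    obtain ⟨b1, b2, -, -, -, -, -, -, b3, b4⟩ := key t' ht'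
    have h1 : x t.1 / g = x t'.1 / g := congrArg Prod.fst htt
    have h2 : x t.2 / g = x t'.2 / g := congrArg Prod.snd htt
    have h3 : x t.1 = x t'.1 := by
      rw [← Nat.div_mul_cancel a3, ← Nat.div_mul_cancel b3, h1]
    have h4 : x t.2 = x t'.2 := by
      rw [← Nat.div_mul_cancel a4, ← Nat.div_mul_cancel b4, h2]
    apply Prod.ext
    · rw [← a1, ← b1, h3]
    · rw [← a2, ← b2, h4]
  obtain ⟨p1, p2, p0, p3, p4, p6, p7, p8, p9, p10, p11, p12, p13⟩ := hP t₁ ht₁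
  obtain ⟨k1, k2, k3, k4, k5, k6, k7, k8, k9, k10⟩ := key t₁ ht₁
  have hd0 : 0 < d := Nat.pos_of_ne_zero fun h => by rw [h, mul_zero] at k1; omega
  have hd'0 : 0 < d' := Nat.pos_of_ne_zero fun h => by rw [h, mul_zero] at k2; omega
  have hg0 : 0 < g := Nat.pos_of_dvd_of_pos k9 k3
  have hgR : (1 : ℝ) ≤ g := by exact_mod_cast hg0
  have hdf : Nat.Coprime d f := Nat.Coprime.coprime_dvd_left k7 p6
  have hd'f : Nat.Coprime d' f := Nat.Coprime.coprime_dvd_left k8 p7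
  have hud : IsUnit (d : ZMod f) := (ZMod.isUnit_iff_coprime d f).2 hdf
  have hud' : IsUnit (d' : ZMod f) := (ZMod.isUnit_iff_coprime d' f).2 hd'f
  obtain ⟨ud, hud2⟩ := hud
  set c : ZMod f := (d' : ZMod f) * ((ud⁻¹ : (ZMod f)ˣ) : ZMod f) with hc
  have hcu : IsUnit c := hud'.mul (ud⁻¹).isUnit
  have hdR : (0 : ℝ) < d := by exact_mod_cast hd0
  have hd'R : (0 : ℝ) < d' := by exact_mod_cast hd'0
  set ξ : ℝ := (ρ * d' / d) ^ ((1 : ℝ) / k) with hξ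
  have hq : 0 < ρ * d' / d := by positivity
  have hξ0 : 0 < ξ := Real.rpow_pos_of_pos hq _
  have hξk : ξ ^ k = ρ * d' / d := root_pow hq.le hk
  set Z : ℝ := A ^ ((1 : ℝ) / k) with hZ
  have hZ0 : 0 ≤ Z := root_nonneg hA.le k
  have hZk : Z ^ k = A := root_pow hA.le hk
  set Y : ℝ := Z / g with hY
  have hY0 : 0 ≤ Y := by positivity
  have hYZ : Y ≤ Z := div_le_self hZ0 hgR
  have hδ1 : (1 : ℝ) ≤ 1 + δ := by linarith
  -- real inequalities for members of `P`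
  have hreal : ∀ t ∈ P, (x t.2 : ℝ) ≤ Z ∧ ξ * x t.2 ≤ x t.1 ∧
      (x t.1 : ℝ) ≤ ξ * (1 + δ) * x t.2 ∧ (x t.1 : ℝ) ≤ Z := by
    intro t ht
    obtain ⟨-, -, -, q3, q4, -, -, -, q9, q10, -, q12, q13⟩ := hP t ht
    obtain ⟨a1, a2, -⟩ := key t ht
    obtain ⟨hx1, -⟩ := hx t.1 q3
    obtain ⟨hy1, -⟩ := hx t.2 q4
    have e1 : (x t.1 : ℝ) ^ k * d = t.1 := by exact_mod_cast a1
    have e2 : (x t.2 : ℝ) ^ k * d' = t.2 := by exact_mod_cast a2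
    have e3 : (x t.1 : ℝ) ^ k ≤ A := by
      have : ((x t.1 ^ k : ℕ) : ℝ) ≤ A := by rw [hx1]; exact q9
      exact_mod_cast this
    have e4 : (x t.2 : ℝ) ^ k ≤ A := by
      have : ((x t.2 ^ k : ℕ) : ℝ) ≤ A := by rw [hy1]; exact q10
      exact_mod_cast this
    refine ⟨?_, ?_, ?_, ?_⟩
    · apply le_of_pow hZ0 hk
      rw [hZk]
      exact e4
    · apply le_of_pow (Nat.cast_nonneg _) hk
      rw [mul_pow, hξk]
      have h1 : ρ * (d' : ℝ) / d * (x t.2 : ℝ) ^ k = ρ * ((x t.2 : ℝ) ^ k * d') / d := by ring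
      rw [h1, e2, div_le_iff₀ hdR, e1]
      exact q12
    · apply le_of_pow (by positivity) hk
      rw [mul_pow, mul_pow, hξk]
      have h1 : ρ * (d' : ℝ) / d * (1 + δ) ^ k * (x t.2 : ℝ) ^ k =
          ρ * (1 + δ) ^ k * ((x t.2 : ℝ) ^ k * d') / d := by ring
      rw [h1, e2, le_div_iff₀ hdR, e1]
      refine q13.trans ?_
      have h2 : (1 + δ) ≤ (1 + δ) ^ k := le_self_pow₀ hδ1 (by omega)
      have h3 : (0 : ℝ) ≤ t.2 := Nat.cast_nonneg _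
      exact mul_le_mul_of_nonneg_right (mul_le_mul_of_nonneg_left h2 hρ.le) h3
    · apply le_of_pow hZ0 hk
      rw [hZk]
      exact e3
  have hTD := hD k hk hkK f hf c hcu Y ξ δ hY0 hξ0 hδ T (by
    intro t ht
    rw [hT, Finset.mem_image] at ht
    obtain ⟨s, hs, rfl⟩ := ht
    obtain ⟨q1, q2, q0, q3, q4, q6, q7, q8, -⟩ := hP s hs
    obtain ⟨a1, a2, a3, a4, a5, a6, a7, a8, a9, a10⟩ := key s hs
    obtain ⟨r1, r2, r3, -⟩ := hreal s hs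
    have c1 : (x s.1 / g) * g = x s.1 := Nat.div_mul_cancel a9
    have c2 : (x s.2 / g) * g = x s.2 := Nat.div_mul_cancel a10
    have c1R : ((x s.1 / g : ℕ) : ℝ) * g = x s.1 := by exact_mod_cast c1
    have c2R : ((x s.2 / g : ℕ) : ℝ) * g = x s.2 := by exact_mod_cast c2
    have hg' : (0 : ℝ) < g := by linarith
    have d1 : x s.1 / g ∣ s.1 := (Dvd.intro _ c1).trans a5
    have d2 : x s.2 / g ∣ s.2 := (Dvd.intro _ c2).trans a6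
    have hgf : Nat.Coprime g f := Nat.Coprime.coprime_dvd_left (a9.trans a5) q6
    refine ⟨Nat.div_pos (Nat.le_of_dvd a3 a9) hg0, Nat.div_pos (Nat.le_of_dvd a4 a10) hg0,
      ?_, ?_, ?_, ?_, ?_, ?_, ?_⟩
    · have h := Nat.coprime_div_gcd_div_gcd (m := x s.1) (n := x s.2) (by rw [q0]; exact hg0)
      rwa [q0] at h
    · exact Nat.Coprime.coprime_dvd_left d1 q6
    · exact Nat.Coprime.coprime_dvd_left d2 q7
    · change ((x s.1 / g : ℕ) : ZMod f) ^ k = c * ((x s.2 / g : ℕ) : ZMod f) ^ k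
      have e1 : (x s.1 : ZMod f) ^ k * (d : ZMod f) = (s.1 : ZMod f) := by
        rw [← a1]; push_cast; rw [a1]
      have e2 : (x s.2 : ZMod f) ^ k * (d' : ZMod f) = (s.2 : ZMod f) := by
        rw [← a2]; push_cast; rw [a2]
      have e3 : (x s.1 : ZMod f) ^ k * (d : ZMod f) =
          (x s.2 : ZMod f) ^ k * (d' : ZMod f) := by rw [e1, e2, q8]
      rw [← hud2] at e3
      have e4 : (x s.1 : ZMod f) ^ k = (x s.1 : ZMod f) ^ k * (ud : ZMod f) *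
          ((ud⁻¹ : (ZMod f)ˣ) : ZMod f) := by
        rw [mul_assoc, Units.mul_inv, mul_one]
      have e5 : (x s.1 : ZMod f) ^ k = c * (x s.2 : ZMod f) ^ k := by
        rw [e4, e3, hc]
        ring
      have e6 : (x s.1 : ZMod f) = ((x s.1 / g : ℕ) : ZMod f) * (g : ZMod f) := by
        rw [← Nat.cast_mul, c1]
      have e7 : (x s.2 : ZMod f) = ((x s.2 / g : ℕ) : ZMod f) * (g : ZMod f) := by
        rw [← Nat.cast_mul, c2]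
      rw [e6, e7, mul_pow, mul_pow, ← mul_assoc] at e5
      have hgu : IsUnit ((g : ZMod f) ^ k) := ((ZMod.isUnit_iff_coprime g f).2 hgf).pow k
      exact hgu.mul_right_cancel e5
    · change ((x s.2 / g : ℕ) : ℝ) ≤ Y
      rw [hY, le_div_iff₀ hg', c2R]
      exact r1
    · change ξ * ((x s.2 / g : ℕ) : ℝ) ≤ ((x s.1 / g : ℕ) : ℝ)
      refine le_of_mul_le_mul_right ?_ hg'
      rw [mul_assoc, c1R, c2R]
      exact r2
    · change ((x s.1 / g : ℕ) : ℝ) ≤ ξ * (1 + δ) * ((x s.2 / g : ℕ) : ℝ)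
      refine le_of_mul_le_mul_right ?_ hg'
      rw [mul_assoc (ξ * (1 + δ)), c1R, c2R]
      exact r3)
  rw [hcard] at hTD
  refine hTD.trans ?_
  obtain ⟨r1, r2, r3, r4⟩ := hreal t₁ ht₁
  have hYκ : Z ≤ κ * x t₁.2 := by
    apply le_of_pow (by positivity) hk
    rw [hZk, mul_pow]
    obtain ⟨hy1, -⟩ := hx t₁.2 p4
    have e5 : ((x t₁.2 : ℝ)) ^ k = part K t₁.2 S := by exact_mod_cast hy1
    rw [e5]
    refine p11.trans ?_
    have h2 : κ ≤ κ ^ k := le_self_pow₀ hκ (by omega)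
    exact mul_le_mul_of_nonneg_right h2 (Nat.cast_nonneg _)
  have hmain : ξ * Y ^ 2 ≤ κ * (A ^ 2) ^ ((1 : ℝ) / k) := by
    have hAA : (A ^ 2) ^ ((1 : ℝ) / k) = Z * Z := by
      rw [sq, Real.mul_rpow hA.le hA.le]
    rw [hAA]
    calc ξ * Y ^ 2 ≤ ξ * Z ^ 2 :=
          mul_le_mul_of_nonneg_left (pow_le_pow_left₀ hY0 hYZ 2) hξ0.le
      _ = ξ * Z * Z := by ring
      _ ≤ ξ * (κ * x t₁.2) * Z :=
          mul_le_mul_of_nonneg_right (mul_le_mul_of_nonneg_left hYκ hξ0.le) hZ0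
      _ = κ * (ξ * x t₁.2) * Z := by ring
      _ ≤ κ * (x t₁.1) * Z :=
          mul_le_mul_of_nonneg_right (mul_le_mul_of_nonneg_left r2 (by linarith)) hZ0
      _ ≤ κ * Z * Z :=
          mul_le_mul_of_nonneg_right (mul_le_mul_of_nonneg_left r4 (by linarith)) hZ0
      _ = κ * (Z * Z) := by ring
  have hE0 : 0 ≤ (A ^ 2) ^ ((1 : ℝ) / k) := Real.rpow_nonneg (pow_pos hA 2).le _
  have h5 : 1 + ξ * δ * Y ^ 2 / f ≤ κ * (1 + δ * (A ^ 2) ^ ((1 : ℝ) / k) / f) := by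
    have h6 : ξ * δ * Y ^ 2 / f ≤ κ * (δ * (A ^ 2) ^ ((1 : ℝ) / k) / f) := by
      rw [← mul_div_assoc]
      apply div_le_div_of_nonneg_right _ hfR.le
      calc ξ * δ * Y ^ 2 = δ * (ξ * Y ^ 2) := by ring
        _ ≤ δ * (κ * (A ^ 2) ^ ((1 : ℝ) / k)) := mul_le_mul_of_nonneg_left hmain hδ
        _ = κ * (δ * (A ^ 2) ^ ((1 : ℝ) / k)) := by ring
    rw [mul_add, mul_one]
    linarith
  have h7 : (f : ℝ) ^ ε ≤ (X : ℝ) ^ ε :=
    Real.rpow_le_rpow hfR.le (by exact_mod_cast hfX) hε.le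
  have h8 : 0 ≤ 1 + ξ * δ * Y ^ 2 / f := by positivity
  calc D₂ * (f : ℝ) ^ ε * (1 + ξ * δ * Y ^ 2 / f)
      ≤ D₂ * (X : ℝ) ^ ε * (1 + ξ * δ * Y ^ 2 / f) :=
        mul_le_mul_of_nonneg_right (mul_le_mul_of_nonneg_left h7 hD₂.le) h8
    _ ≤ _ := mul_le_mul_of_nonneg_left h5 (by positivity)

lemma rad_pos (n : ℕ) : 0 < rad n := Finset.prod_pos fun _ hp => Nat.pos_of_mem_primeFactors hp

theorem stmtW1_of (hF : Basics) (hA3 : StmtA3) (hA5 : StmtA5) (hD : StmtD) : StmtW1 := by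
  classical
  intro K ε hε κ hκ
  obtain ⟨D₁, hD₁, h1⟩ := hA5 (ε / 3) (by positivity)
  obtain ⟨D₃, hD₃, h3⟩ := hA3 (ε / 3) (by positivity)
  obtain ⟨D₂, hD₂, h2⟩ := hD (K + 1) (ε / 3) (by positivity)
  refine ⟨D₁ * D₃ * (D₂ * κ), by positivity, ?_⟩
  intro k hk hkK X f hX hf hfX S hS A R ρ δ hA hR hρ hδ Q hQ
  have hfR : (0 : ℝ) < f := by exact_mod_cast hf
  have hXR : (0 : ℝ) < X := by exact_mod_cast hX
  -- the k-th roots
  have hex : ∀ n : ℕ, ∃ x : ℕ, 1 ≤ n → x ^ k = part K n S ∧ x.primeFactors = pf K n S ∧ 1 ≤ x := by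
    intro n
    by_cases hn : 1 ≤ n
    · obtain ⟨x, h1, h2, h3⟩ := hF.power K k n S hn hk hS
      exact ⟨x, fun _ => ⟨h1, h2, h3⟩⟩
    · exact ⟨1, fun h => absurd h hn⟩
  choose x hx using hex
  set G : Finset ℕ := (Icc 1 X).filter fun d => (rad d : ℝ) ≤ R with hG
  set H : Finset ℕ := (Icc 1 X).filter fun d => 1 ∣ rad d with hH
  have hmaps : ∀ t ∈ Q, (((part K t.1 Sᶜ, part K t.2 Sᶜ), Nat.gcd (x t.1) (x t.2)) :
      (ℕ × ℕ) × ℕ) ∈ (G ×ˢ G) ×ˢ H := by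
    intro t ht
    obtain ⟨q1, q2, q3, q4, -, -, -, -, -, -, q12, q13, -⟩ := hQ t ht
    rw [Finset.mem_product, Finset.mem_product, hG, hH, Finset.mem_filter, Finset.mem_filter,
      Finset.mem_filter, Finset.mem_Icc, Finset.mem_Icc, Finset.mem_Icc]
    obtain ⟨x1, x2, x3⟩ := hx t.1 q1
    have hxt : x t.1 ∣ t.1 := (dvd_pow_self _ (by omega : k ≠ 0)).trans
      (by rw [x1]; exact hF.part_dvd K _ _ q1)
    refine ⟨⟨⟨⟨hF.part_pos K _ _, ?_⟩, ?_⟩, ⟨⟨hF.part_pos K _ _, ?_⟩, ?_⟩⟩, ⟨⟨?_, ?_⟩, one_dvd _⟩⟩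
    · exact (Nat.le_of_dvd q1 (hF.part_dvd K _ _ q1)).trans q2
    · change (rad (part K t.1 Sᶜ) : ℝ) ≤ R
      rw [hF.rad_part K _ _ q1]
      exact q12
    · exact (Nat.le_of_dvd q3 (hF.part_dvd K _ _ q3)).trans q4
    · change (rad (part K t.2 Sᶜ) : ℝ) ≤ R
      rw [hF.rad_part K _ _ q3]
      exact q13
    · exact Nat.gcd_pos_of_pos_left _ x3
    · exact (Nat.le_of_dvd q1 ((Nat.gcd_dvd_left _ _).trans hxt)).trans q2
  set B : ℝ := D₂ * (X : ℝ) ^ (ε / 3) * (κ * (1 + δ * (A ^ 2) ^ ((1 : ℝ) / k) / f)) with hB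
  have hE0 : 0 ≤ (A ^ 2) ^ ((1 : ℝ) / k) := Real.rpow_nonneg (pow_pos hA 2).le _
  have hB0 : 0 ≤ B := by positivity
  have hfib : ∀ b ∈ (G ×ˢ G) ×ˢ H,
      ∑ t ∈ Q with (((part K t.1 Sᶜ, part K t.2 Sᶜ), Nat.gcd (x t.1) (x t.2)) :
        (ℕ × ℕ) × ℕ) = b,
        (Nat.gcd (rd K t.1 Sᶜ) (rd K t.2 Sᶜ) : ℝ) / (Nat.gcd (rd K t.1 S) (rd K t.2 S) : ℝ) ≤
      B * ((Nat.gcd (rad b.1.1) (rad b.1.2) : ℝ) * (1 / (rad b.2 : ℝ))) := by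
    intro b _
    have hc : ((Q.filter fun t => (((part K t.1 Sᶜ, part K t.2 Sᶜ), Nat.gcd (x t.1) (x t.2)) :
        (ℕ × ℕ) × ℕ) = b).card : ℝ) ≤ B := by
      apply fibre hF hk hkK hD₂ (by positivity) h2 hκ hf hfX hA hρ hδ x
        (fun n hn => ⟨(hx n hn).1, (hx n hn).2.2⟩) b.1.1 b.1.2 b.2
      intro t ht
      rw [Finset.mem_filter] at ht
      obtain ⟨q1, q2, q3, q4, q6, q7, q8, q9, q10, q11, q12, q13, q14, q15⟩ := hQ t ht.1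
      exact ⟨congrArg (fun z => z.1.1) ht.2, congrArg (fun z => z.1.2) ht.2,
        congrArg Prod.snd ht.2, q1, q3, q6, q7, q8, q9, q10, q11, q14, q15⟩
    have hw : ∀ t ∈ Q.filter fun t => (((part K t.1 Sᶜ, part K t.2 Sᶜ),
        Nat.gcd (x t.1) (x t.2)) : (ℕ × ℕ) × ℕ) = b,
        (Nat.gcd (rd K t.1 Sᶜ) (rd K t.2 Sᶜ) : ℝ) / (Nat.gcd (rd K t.1 S) (rd K t.2 S) : ℝ) ≤
        (Nat.gcd (rad b.1.1) (rad b.1.2) : ℝ) * (1 / (rad b.2 : ℝ)) := by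
      intro t ht
      rw [Finset.mem_filter] at ht
      obtain ⟨q1, q2, q3, q4, -⟩ := hQ t ht.1
      have e1 : part K t.1 Sᶜ = b.1.1 := congrArg (fun z => z.1.1) ht.2
      have e2 : part K t.2 Sᶜ = b.1.2 := congrArg (fun z => z.1.2) ht.2
      have e3 : Nat.gcd (x t.1) (x t.2) = b.2 := congrArg Prod.snd ht.2
      have hr : ∀ n, 1 ≤ n → rd K n S = rad (x n) := by
        intro n hn
        unfold rd rad
        rw [(hx n hn).2.1]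
      have hdv : ∀ n, 1 ≤ n → b.2 ∣ x n → rad b.2 ∣ rd K n S := by
        intro n hn hbn
        rw [hr n hn]
        unfold rad
        have hxn := (hx n hn).2.2
        exact Finset.prod_dvd_prod_of_subset _ _ _ (Nat.primeFactors_mono hbn (by omega))
      have e4 : rad b.2 ∣ Nat.gcd (rd K t.1 S) (rd K t.2 S) :=
        Nat.dvd_gcd (hdv _ q1 (e3 ▸ Nat.gcd_dvd_left _ _)) (hdv _ q3 (e3 ▸ Nat.gcd_dvd_right _ _))
      have e5 : rad b.2 ≤ Nat.gcd (rd K t.1 S) (rd K t.2 S) :=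
        Nat.le_of_dvd (Nat.gcd_pos_of_pos_left _ (hF.rd_pos K _ _)) e4
      have e6 : (0 : ℝ) < rad b.2 := by exact_mod_cast rad_pos b.2
      rw [← e1, ← e2, hF.rad_part K _ _ q1, hF.rad_part K _ _ q3, mul_one_div]
      exact div_le_div_of_nonneg_left (Nat.cast_nonneg _) e6 (by exact_mod_cast e5)
    refine (Finset.sum_le_card_nsmul _ _ _ hw).trans ?_
    rw [nsmul_eq_mul]
    exact mul_le_mul_of_nonneg_right hc (by positivity)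
  rw [← Finset.sum_fiberwise_of_maps_to hmaps]
  refine (Finset.sum_le_sum hfib).trans ?_
  rw [← Finset.mul_sum]
  have hprod : ∑ b ∈ (G ×ˢ G) ×ˢ H, (Nat.gcd (rad b.1.1) (rad b.1.2) : ℝ) * (1 / (rad b.2 : ℝ)) =
      (∑ d ∈ G, ∑ d' ∈ G, (Nat.gcd (rad d) (rad d') : ℝ)) * ∑ g ∈ H, 1 / (rad g : ℝ) := by
    rw [Finset.sum_product, Finset.sum_mul]
    rw [Finset.sum_product]
    refine Finset.sum_congr rfl fun d _ => ?_
    rw [Finset.sum_mul]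
    refine Finset.sum_congr rfl fun d' _ => ?_
    rw [Finset.mul_sum]
  rw [hprod]
  have g1 := h1 X hX R hR
  have g3 := h3 X hX 1 le_rfl
  rw [Nat.cast_one, div_one] at g3
  have h4 : (X : ℝ) ^ ε = (X : ℝ) ^ (ε / 3) * (X : ℝ) ^ (ε / 3) * (X : ℝ) ^ (ε / 3) := by
    rw [← Real.rpow_add hXR, ← Real.rpow_add hXR]
    congr 1
    ring
  have g4 : (∑ d ∈ G, ∑ d' ∈ G, (Nat.gcd (rad d) (rad d') : ℝ)) * ∑ g ∈ H, 1 / (rad g : ℝ) ≤
      (D₁ * (X : ℝ) ^ (ε / 3) * R ^ 2) * (D₃ * (X : ℝ) ^ (ε / 3)) :=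
    mul_le_mul g1 g3 (Finset.sum_nonneg fun g _ => by positivity) (by positivity)
  refine (mul_le_mul_of_nonneg_left g4 hB0).trans (le_of_eq ?_)
  rw [hB, h4]
  ring

end Pool.Agent.W342.AB
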